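import Pool.Agent.Q240.KS.Stm1
import Pool.Agent.H902R3.Task469C

set_option autoImplicit false

/-!
Project KS (helper240): Brun-Titchmarsh for `Λ(n)/n` on short intervals of `log n` (helper251).
-/

namespace Pool.Agent.Q251.KS

open Finset Pool.Agent.Q240.KS

/-- powers of exponent `k` in short intervals -/
theorem kth (A H k : ℕ) (hA : 1 ≤ A) (hk : 2 ≤ k) :
    (((range (A + H + 1)).filter (fun m => A < m ^ k ∧ m ^ k ≤ A + H)).card : ℝ) ≤
      H / Real.sqrt A + 1 := by
  set S := (range (A + H + 1)).filter (fun m => A < m ^ k ∧ m ^ k ≤ A + H) with hS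
  have hA0 : (0 : ℝ) < Real.sqrt A := Real.sqrt_pos.2 (by exact_mod_cast hA)
  rcases S.eq_empty_or_nonempty with h | h
  · rw [h]
    simp
    positivity
  set m₀ := S.min' h with hm₀
  have hm0S := S.min'_mem h
  rw [← hm₀, hS, mem_filter] at hm0S
  have hsub : S ⊆ Icc m₀ (m₀ + ⌊(H : ℝ) / Real.sqrt A⌋₊) := by
    intro m hm
    have h1 : m₀ ≤ m := S.min'_le m hm
    rw [hS, mem_filter] at hm
    rw [mem_Icc]
    refine ⟨h1, ?_⟩
    have h2 : m - m₀ ≤ ⌊(H : ℝ) / Real.sqrt A⌋₊ := by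
      refine Nat.le_floor ?_
      rw [le_div_iff₀ hA0]
      obtain ⟨j, rfl⟩ : ∃ j, k = j + 1 := ⟨k - 1, by omega⟩
      have h3 : (A : ℝ) < ((m : ℝ) ^ j) ^ 2 := by
        have h4 : 1 ≤ m := by
          rcases Nat.eq_zero_or_pos m with h5 | h5
          · rw [h5, zero_pow (by omega)] at hm
            omega
          · exact h5
        have h5 : m ^ (j + 1) ≤ (m ^ j) ^ 2 := by
          rw [← pow_mul]
          exact Nat.pow_le_pow_right h4 (by omega)
        have h6 : A < (m ^ j) ^ 2 := lt_of_lt_of_le hm.2.1 h5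
        exact_mod_cast h6
      have h4 : Real.sqrt A ≤ (m : ℝ) ^ j := by
        rw [← Real.sqrt_sq (by positivity : (0 : ℝ) ≤ (m : ℝ) ^ j)]
        exact Real.sqrt_le_sqrt h3.le
      have h5 : m₀ ^ j ≤ m ^ j := Nat.pow_le_pow_left h1 j
      have h6 : (m - m₀) * m ^ j ≤ H := by
        have h7 : m₀ ^ (j + 1) ≤ m ^ j * m₀ := by
          rw [pow_succ]
          exact Nat.mul_le_mul_right _ h5
        have h8 : m ^ (j + 1) = m ^ j * m := pow_succ _ _
        have h9 : (m - m₀) * m ^ j + m ^ j * m₀ = m ^ j * m := by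
          obtain ⟨r, rfl⟩ := Nat.exists_eq_add_of_le h1
          rw [Nat.add_sub_cancel_left]
          ring
        omega
      calc ((m - m₀ : ℕ) : ℝ) * Real.sqrt A ≤ ((m - m₀ : ℕ) : ℝ) * (m : ℝ) ^ j := by gcongr
        _ ≤ H := by exact_mod_cast h6
    omega
  have h1 := card_le_card hsub
  rw [Nat.card_Icc] at h1
  have h2 : (S.card : ℝ) ≤ ((⌊(H : ℝ) / Real.sqrt A⌋₊ + 1 : ℕ) : ℝ) := by
    exact_mod_cast (by omega : S.card ≤ ⌊(H : ℝ) / Real.sqrt A⌋₊ + 1)
  refine h2.trans ?_
  push_cast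
  have := Nat.floor_le (show 0 ≤ (H : ℝ) / Real.sqrt A by positivity)
  linarith

/-- proper prime powers in short intervals -/
theorem ppw (A H : ℕ) (hA : 1 ≤ A) :
    (((Ioc A (A + H)).filter (fun n => IsPrimePow n ∧ ¬ n.Prime)).card : ℝ) ≤
      (Nat.log 2 (A + H) : ℝ) * (H / Real.sqrt A + 1) := by
  classical
  set L := Nat.log 2 (A + H) with hL
  have hsub : (Ioc A (A + H)).filter (fun n => IsPrimePow n ∧ ¬ n.Prime) ⊆
      (Icc 2 L).biUnion (fun k => ((range (A + H + 1)).filter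
        (fun m => A < m ^ k ∧ m ^ k ≤ A + H)).image (fun m => m ^ k)) := by
    intro n hn
    rw [mem_filter, mem_Ioc] at hn
    obtain ⟨⟨hn1, hn2⟩, hn3, hn4⟩ := hn
    rw [isPrimePow_nat_iff] at hn3
    obtain ⟨p, k, hp, hk, rfl⟩ := hn3
    have hk2 : 2 ≤ k := by
      by_contra h
      have : k = 1 := by omega
      subst this
      rw [pow_one] at hn4
      exact hn4 hp
    rw [mem_biUnion]
    refine ⟨k, ?_, ?_⟩
    · rw [mem_Icc]
      refine ⟨hk2, ?_⟩
      refine Nat.le_log_of_pow_le (by norm_num) ?_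
      exact (Nat.pow_le_pow_left hp.two_le k).trans hn2
    · rw [mem_image]
      refine ⟨p, ?_, rfl⟩
      rw [mem_filter, mem_range]
      refine ⟨?_, hn1, hn2⟩
      have := Nat.le_self_pow (by omega : k ≠ 0) p
      omega
  have h1 := (card_le_card hsub).trans card_biUnion_le
  have h2 : (((Ioc A (A + H)).filter (fun n => IsPrimePow n ∧ ¬ n.Prime)).card : ℝ) ≤
      ∑ k ∈ Icc 2 L, ((((range (A + H + 1)).filter
        (fun m => A < m ^ k ∧ m ^ k ≤ A + H)).image (fun m => m ^ k)).card : ℝ) := by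
    exact_mod_cast h1
  refine h2.trans ?_
  have h3 : ∀ k ∈ Icc 2 L, ((((range (A + H + 1)).filter
        (fun m => A < m ^ k ∧ m ^ k ≤ A + H)).image (fun m => m ^ k)).card : ℝ) ≤
        H / Real.sqrt A + 1 := by
    intro k hk
    rw [mem_Icc] at hk
    refine le_trans ?_ (kth A H k hA hk.1)
    exact_mod_cast card_image_le
  refine (sum_le_card_nsmul _ _ _ h3).trans ?_
  rw [nsmul_eq_mul, Nat.card_Icc]
  refine mul_le_mul_of_nonneg_right ?_ (by positivity)
  exact_mod_cast (by omega : L + 1 - 2 ≤ L)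

theorem exp_big {a C Y : ℝ} (ha : 0 < a) (hC : 0 ≤ C) (h1 : 3 ≤ Y) (h2 : 24 * C / a ^ 3 ≤ Y) :
    C * (Y + 3) ^ 2 ≤ Real.exp (a * Y) := by
  have h3 := Real.pow_div_factorial_le_exp (a * Y) (by positivity) 3
  have h4 : 24 * C ≤ Y * a ^ 3 := by
    rwa [div_le_iff₀ (by positivity)] at h2
  refine le_trans ?_ h3
  have h5 : ((Nat.factorial 3 : ℕ) : ℝ) = 6 := by norm_num [Nat.factorial]
  rw [h5, le_div_iff₀ (by norm_num)]
  have h6 : (Y + 3) ^ 2 ≤ 4 * Y ^ 2 := by nlinarith
  calc C * (Y + 3) ^ 2 * 6 ≤ C * (4 * Y ^ 2) * 6 := by gcongr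
    _ = (24 * C) * Y ^ 2 := by ring
    _ ≤ (Y * a ^ 3) * Y ^ 2 := by gcongr
    _ = (a * Y) ^ 3 := by ring

theorem btl : S_BTL := by
  intro θ hθ0 hθ1
  set g : ℝ := 1 - θ with hg
  have hg0 : 0 < g := by linarith
  have hg1 : g < 1 := by linarith
  obtain ⟨N₀, hN₀, hbt⟩ := Pool.Agent.H902R3.C469.bt2 1 one_pos
  refine ⟨60 / g + 1, max (max 3 (2 / g)) (max (max ((N₀ + 1) / g) (24 * 12 / g ^ 3))
    (24 * 80 / (1 / 2) ^ 3)), ?_, ?_⟩
  · have : 0 < 60 / g := by positivity
    linarith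
  intro Y v h hY hv hh hh1
  have hY1 : 3 ≤ Y := (le_max_left _ _).trans ((le_max_left _ _).trans hY)
  have hY2 : 2 / g ≤ Y := (le_max_right _ _).trans ((le_max_left _ _).trans hY)
  have hY3 : (N₀ + 1) / g ≤ Y :=
    (le_max_left _ _).trans ((le_max_left _ _).trans ((le_max_right _ _).trans hY))
  have hY4 : 24 * 12 / g ^ 3 ≤ Y :=
    (le_max_right _ _).trans ((le_max_left _ _).trans ((le_max_right _ _).trans hY))
  have hY5 : 24 * 80 / (1 / 2) ^ 3 ≤ Y := (le_max_right _ _).trans ((le_max_right _ _).trans hY)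
  have hb1 := exp_big hg0 (by norm_num) hY1 hY4
  have hb2 := exp_big (show (0 : ℝ) < 1 / 2 by norm_num) (by norm_num) hY1 hY5
  rw [div_le_iff₀ hg0] at hY2 hY3
  obtain ⟨hv1, hv2⟩ := abs_le.1 hv
  have hh0 : 0 < h := (Real.exp_pos _).trans_le hh
  set E := h * Real.exp v with hE
  have hEg : Real.exp (g * Y - 1) ≤ E := by
    rw [hE, show g * Y - 1 = -(θ * Y) + (Y - 1) by rw [hg]; ring, Real.exp_add]
    exact mul_le_mul hh (Real.exp_le_exp.2 (by linarith)) (Real.exp_pos _).le hh0.le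
  have hE1 : 1 ≤ E := by
    refine le_trans ?_ hEg
    exact Real.one_le_exp (by linarith)
  have hEN : (N₀ : ℝ) ≤ E := by
    refine le_trans ?_ hEg
    have := Real.add_one_le_exp (g * Y - 1)
    linarith
  have hev0 := Real.exp_pos v
  have hev : 2 ≤ Real.exp v := by
    have := Real.add_one_le_exp v
    linarith
  have hEle : E ≤ Real.exp v := by
    rw [hE]
    nlinarith
  set A := ⌈Real.exp v⌉₊ - 1 with hA
  set H := ⌈4 * E⌉₊ with hH
  have hc1 : 2 ≤ ⌈Real.exp v⌉₊ := by
    have : (2 : ℝ) ≤ (⌈Real.exp v⌉₊ : ℝ) := hev.trans (Nat.le_ceil _)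
    exact_mod_cast this
  have hA1 : 1 ≤ A := by omega
  have hAc : (A : ℝ) + 1 = (⌈Real.exp v⌉₊ : ℝ) := by
    have : A + 1 = ⌈Real.exp v⌉₊ := by omega
    exact_mod_cast this
  have hA2 : Real.exp v ≤ A + 1 := by rw [hAc]; exact Nat.le_ceil _
  have hA3 : (A : ℝ) ≤ Real.exp v := by
    have := Nat.ceil_lt_add_one hev0.le
    linarith
  have hA4 : Real.exp v / 4 ≤ A := by linarith
  have hH1 : 4 * E ≤ H := Nat.le_ceil _
  have hH2 : (H : ℝ) ≤ 5 * E := by
    have := Nat.ceil_lt_add_one (show 0 ≤ 4 * E by linarith)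
    linarith
  have hexp : Real.exp (v + h) ≤ Real.exp v + 2 * E := by
    rw [Real.exp_add]
    have h3 := Real.abs_exp_sub_one_sub_id_le (x := h) (by rw [abs_of_pos hh0]; exact hh1)
    have h4 := (abs_le.1 h3).2
    have h5 : Real.exp h ≤ 1 + 2 * h := by nlinarith
    calc Real.exp v * Real.exp h ≤ Real.exp v * (1 + 2 * h) := by gcongr
      _ = Real.exp v + 2 * E := by rw [hE]; ring
  -- the sum
  set S := (Icc 1 ⌊Real.exp (v + h)⌋₊).filter (fun n : ℕ => v ≤ Real.log n) with hS
  have hSmem : ∀ n ∈ S, Real.exp v ≤ n ∧ (n : ℝ) ≤ Real.exp (v + h) := by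
    intro n hn
    rw [hS, mem_filter, mem_Icc] at hn
    have hn0 : (0 : ℝ) < n := by exact_mod_cast hn.1.1
    refine ⟨?_, (Nat.le_floor_iff (Real.exp_pos _).le).1 hn.1.2⟩
    rw [← Real.exp_log hn0]
    exact Real.exp_le_exp.2 hn.2
  have hSsub : ∀ n ∈ S, n ∈ Ioc A (A + H) := by
    intro n hn
    obtain ⟨h3, h4⟩ := hSmem n hn
    rw [mem_Ioc]
    constructor
    · have : ⌈Real.exp v⌉₊ ≤ n := Nat.ceil_le.2 h3
      omega
    · have h5 : (n : ℝ) ≤ A + H := by linarith
      exact_mod_cast h5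
  have hterm : ∀ n ∈ S, ArithmeticFunction.vonMangoldt n / n ≤ (Y + 2) / Real.exp v := by
    intro n hn
    obtain ⟨h3, h4⟩ := hSmem n hn
    have hn0 : (0 : ℝ) < n := hev0.trans_le h3
    have h5 : ArithmeticFunction.vonMangoldt n ≤ Y + 2 := by
      refine ArithmeticFunction.vonMangoldt_le_log.trans ?_
      have := (Real.log_le_iff_le_exp hn0).2 h4
      linarith
    exact div_le_div₀ (by linarith) h5 hev0 h3
  have hsum : SL v h ≤ ((((Ioc A (A + H)).filter Nat.Prime).card : ℝ) +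
      (((Ioc A (A + H)).filter (fun n => IsPrimePow n ∧ ¬ n.Prime)).card : ℝ)) *
      ((Y + 2) / Real.exp v) := by
    classical
    have h3 : SL v h = ∑ n ∈ S.filter (fun n => IsPrimePow n),
        ArithmeticFunction.vonMangoldt n / n := by
      unfold SL
      rw [← hS]
      symm
      refine sum_filter_of_ne ?_
      intro n _ hne
      by_contra hnp
      apply hne
      rw [ArithmeticFunction.vonMangoldt_apply, if_neg hnp, zero_div]
    rw [h3]
    have h4 : S.filter (fun n => IsPrimePow n) ⊆ ((Ioc A (A + H)).filter Nat.Prime) ∪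
        ((Ioc A (A + H)).filter (fun n => IsPrimePow n ∧ ¬ n.Prime)) := by
      intro n hn
      rw [mem_filter] at hn
      rw [mem_union, mem_filter, mem_filter]
      by_cases hp : n.Prime
      · exact Or.inl ⟨hSsub n hn.1, hp⟩
      · exact Or.inr ⟨hSsub n hn.1, hn.2, hp⟩
    have h5 : ((S.filter (fun n => IsPrimePow n)).card : ℝ) ≤
        (((Ioc A (A + H)).filter Nat.Prime).card : ℝ) +
        (((Ioc A (A + H)).filter (fun n => IsPrimePow n ∧ ¬ n.Prime)).card : ℝ) := by
      exact_mod_cast (card_le_card h4).trans (card_union_le _ _)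
    refine (sum_le_card_nsmul _ _ ((Y + 2) / Real.exp v) fun n hn =>
      hterm n (mem_filter.1 hn).1).trans ?_
    rw [nsmul_eq_mul]
    exact mul_le_mul_of_nonneg_right h5 (by positivity)
  -- primes
  have hprime : (((Ioc A (A + H)).filter Nat.Prime).card : ℝ) * ((Y + 2) / Real.exp v) ≤
      60 / g * h := by
    have h3 := hbt A H (by
      have : (N₀ : ℝ) ≤ H := by linarith
      exact_mod_cast this)
    have hlog : g * Y / 2 ≤ Real.log H := by
      have h4 : g * Y - 1 ≤ Real.log H := by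
        rw [Real.le_log_iff_exp_le (by linarith)]
        linarith
      linarith
    have hlog0 : 0 < g * Y / 2 := by positivity
    have h5 : (((Ioc A (A + H)).filter Nat.Prime).card : ℝ) ≤ 15 * E / (g * Y / 2) := by
      refine h3.trans ?_
      exact div_le_div₀ (by linarith) (by linarith) hlog0 hlog
    calc (((Ioc A (A + H)).filter Nat.Prime).card : ℝ) * ((Y + 2) / Real.exp v)
        ≤ 15 * E / (g * Y / 2) * ((2 * Y) / Real.exp v) := by
          gcongr
          linarith
      _ = 60 / g * h := by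
          rw [hE]
          field_simp
          ring
  -- proper prime powers
  have hpp : (((Ioc A (A + H)).filter (fun n => IsPrimePow n ∧ ¬ n.Prime)).card : ℝ) *
      ((Y + 2) / Real.exp v) ≤ h := by
    have h3 := ppw A H hA1
    have hL : (Nat.log 2 (A + H) : ℝ) ≤ 2 * (Y + 3) := by
      have h4 : 2 ^ (Nat.log 2 (A + H)) ≤ A + H := Nat.pow_log_le_self 2 (by omega)
      have h5 : ((2 : ℝ) ^ (Nat.log 2 (A + H))) ≤ A + H := by exact_mod_cast h4
      have h6 : (A : ℝ) + H ≤ Real.exp (v + 2) := by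
        rw [Real.exp_add]
        have h7 : (7 : ℝ) ≤ Real.exp 2 := by
          have h8 := Real.exp_one_gt_d9
          have h9 : Real.exp 2 = Real.exp 1 * Real.exp 1 := by rw [← Real.exp_add]; norm_num
          rw [h9]
          nlinarith
        nlinarith
      have h7 : (Nat.log 2 (A + H) : ℝ) * Real.log 2 ≤ v + 2 := by
        rw [← Real.log_pow]
        have h8 := Real.log_le_log (by positivity) (h5.trans h6)
        rwa [Real.log_exp] at h8
      have h8 := Real.log_two_gt_d9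
      have h9 : (0 : ℝ) ≤ (Nat.log 2 (A + H) : ℝ) := Nat.cast_nonneg _
      nlinarith
    have hsq : Real.exp (v / 2) / 2 ≤ Real.sqrt A := by
      refine Real.le_sqrt_of_sq_le ?_
      rw [div_pow, ← Real.exp_nat_mul]
      have : ((2 : ℕ) : ℝ) * (v / 2) = v := by push_cast; ring
      rw [this]
      linarith
    have hHs : (H : ℝ) / Real.sqrt A ≤ 10 * h * Real.exp (v / 2) := by
      have h4 : 0 < Real.exp (v / 2) := Real.exp_pos _
      rw [div_le_iff₀ (lt_of_lt_of_le (by positivity) hsq)]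
      have h5 : Real.exp v = Real.exp (v / 2) * Real.exp (v / 2) := by
        rw [← Real.exp_add]; congr 1; ring
      calc (H : ℝ) ≤ 5 * E := hH2
        _ = 10 * h * Real.exp (v / 2) * (Real.exp (v / 2) / 2) := by rw [hE, h5]; ring
        _ ≤ 10 * h * Real.exp (v / 2) * Real.sqrt A := by gcongr
    have h4 : (((Ioc A (A + H)).filter (fun n => IsPrimePow n ∧ ¬ n.Prime)).card : ℝ) ≤
        2 * (Y + 3) * (10 * h * Real.exp (v / 2) + 1) :=
      h3.trans (mul_le_mul hL (by linarith) (by positivity) (by positivity))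
    have h5 : Real.exp v = Real.exp (v / 2) * Real.exp (v / 2) := by
      rw [← Real.exp_add]; congr 1; ring
    -- 40 (Y+3)^2 ≤ exp (v/2), 4 (Y+3)^2 ≤ h exp v
    have h6 : 40 * (Y + 3) ^ 2 ≤ Real.exp (v / 2) := by
      have h7 : Real.exp (1 / 2 * Y) ≤ 2 * Real.exp (v / 2) := by
        have h8 : Real.exp (1 / 2 * Y) ≤ Real.exp (1 / 2 + v / 2) :=
          Real.exp_le_exp.2 (by linarith)
        rw [Real.exp_add] at h8
        have h9 : Real.exp (1 / 2) ≤ 2 := by
          have h10 := Real.exp_one_lt_d9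
          have h11 : Real.exp 1 = Real.exp (1 / 2) * Real.exp (1 / 2) := by
            rw [← Real.exp_add]; norm_num
          have h12 := Real.exp_pos (1 / 2 : ℝ)
          nlinarith
        have h10 := Real.exp_pos (v / 2)
        nlinarith
      linarith
    have h7 : 4 * (Y + 3) ^ 2 ≤ E := by
      refine le_trans ?_ hEg
      have h8 : Real.exp (g * Y) = Real.exp (g * Y - 1) * Real.exp 1 := by
        rw [← Real.exp_add]; congr 1; ring
      have h9 := Real.exp_one_lt_d9
      have h10 := Real.exp_pos (g * Y - 1)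
      nlinarith
    rw [← mul_div_assoc, div_le_iff₀ hev0]
    calc (((Ioc A (A + H)).filter (fun n => IsPrimePow n ∧ ¬ n.Prime)).card : ℝ) * (Y + 2)
        ≤ (2 * (Y + 3) * (10 * h * Real.exp (v / 2) + 1)) * (Y + 3) := by
          gcongr
          linarith
      _ = (20 * (Y + 3) ^ 2) * (h * Real.exp (v / 2)) + 2 * (Y + 3) ^ 2 := by ring
      _ ≤ (Real.exp (v / 2) / 2) * (h * Real.exp (v / 2)) + E / 2 := by
          have h8 : 0 < h * Real.exp (v / 2) := by positivity
          nlinarith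
      _ = h * Real.exp v := by
          rw [hE, h5]
          ring
  calc SL v h ≤ _ := hsum
    _ ≤ 60 / g * h + h := by
        rw [add_mul]
        exact add_le_add hprime hpp
    _ = (60 / g + 1) * h := by ring

end Pool.Agent.Q251.KS
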